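import Mathlib

namespace Pool.Agent.Results.MP_df6457_lc.Q1

open List

variable {A : Type}

/-- `M` is a submonoid of the free monoid of words. -/
def Sub (M : Set (List A)) : Prop := [] ∈ M ∧ ∀ u ∈ M, ∀ v ∈ M, u ++ v ∈ M

/-- The minimal generating set of `M`: nonempty elements that are not a product of two. -/
def Gen (M : Set (List A)) : Set (List A) :=
  {w | w ∈ M ∧ w ≠ [] ∧ ¬ ∃ u ∈ M, ∃ v ∈ M, u ≠ [] ∧ v ≠ [] ∧ w = u ++ v}

/-- `M` is a free submonoid: each element factors uniquely as a product of generators. -/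
def Free (M : Set (List A)) : Prop :=
  Sub M ∧ ∀ w ∈ M, ∃! l : List (List A), (∀ g ∈ l, g ∈ Gen M) ∧ l.flatten = w

/-- Factorial, transitive and rational. -/
def FTR (L : Language A) : Prop :=
  (∀ w ∈ L, ∀ u, u <:+: w → u ∈ L) ∧ (∀ u ∈ L, ∀ v ∈ L, ∃ w, u ++ w ++ v ∈ L) ∧ L.IsRegular

def Stab (M : Set (List A)) : Prop := ∀ u ∈ M, ∀ v ∈ M, ∀ w, u ++ w ∈ M → w ++ v ∈ M → w ∈ M

lemma fl {M : Set (List A)} (s : Sub M) (l : List (List A)) (h : ∀ g ∈ l, g ∈ Gen M) : l.flatten ∈ M := by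
  induction l with
  | nil => exact s.1
  | cons g l ih => exact s.2 _ (h g (by simp)).1 _ (ih fun g a => h g (by simp [a]))

lemma free_iff {M : Set (List A)} : Free M ↔ Sub M ∧ Stab M := by
  refine and_congr_right fun s => ⟨fun h u hu v hv w a b => ?_, fun h w hw => ?_⟩
  · obtain ⟨l1, p1, rfl⟩ := (h u hu).exists
    obtain ⟨l2, p2, rfl⟩ := (h v hv).exists
    obtain ⟨l3, p3, e3⟩ := (h _ a).exists
    obtain ⟨l4, p4, e4⟩ := (h _ b).exists
    have := (h _ (s.2 _ hu _ b)).unique (y₁ := l1 ++ l4) (y₂ := l3 ++ l2)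
      ⟨forall_mem_append.2 ⟨p1, p4⟩, by simp [e4]⟩ ⟨forall_mem_append.2 ⟨p3, p2⟩, by simp [e3]⟩
    rcases append_eq_append_iff.1 this with ⟨t, rfl, -⟩ | ⟨t, rfl, -⟩
    · rw [flatten_append, append_cancel_left_eq] at e3
      exact e3 ▸ fl s t (forall_mem_append.1 p3).2
    · have := congrArg length e3
      simp only [flatten_append, length_append] at this
      rw [show w = [] from length_eq_zero_iff.1 (by omega)]; exact s.1
  · refine existsUnique_of_exists_of_unique ?_ fun l m a b => ?_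
    · induction' n : w.length using Nat.strong_induction_on with n ih generalizing w
      by_cases e : w = []
      · exact ⟨[], by simp [e]⟩
      by_cases g : w ∈ Gen M
      · exact ⟨[w], by simp [g]⟩
      obtain ⟨u, a, v, b, c, d, rfl⟩ := not_not.1 fun x => g ⟨hw, e, x⟩
      have := length_pos_iff.2 c
      have := length_pos_iff.2 d
      rw [length_append] at n
      obtain ⟨l, p, rfl⟩ := ih _ (by omega) u a rfl
      obtain ⟨m, q, rfl⟩ := ih _ (by omega) v b rfl
      exact ⟨l ++ m, forall_mem_append.2 ⟨p, q⟩, by simp⟩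
    have e := a.2.trans b.2.symm
    replace a := a.1
    replace b := b.1
    clear hw
    have key {g k t} {l m : List (List A)} (a : ∀ x ∈ g :: l, x ∈ Gen M) (b : ∀ x ∈ k :: m, x ∈ Gen M)
        (e : k = g ++ t) (f : l.flatten = t ++ m.flatten) : t = [] := by
      rw [forall_mem_cons] at a b
      by_contra n
      exact b.1.2.2 ⟨g, a.1.1, t, h g a.1.1 _ (fl s m b.2) t (e ▸ b.1.1) (f ▸ fl s l a.2), a.1.2.1, n, e⟩
    induction l generalizing m with
    | nil => cases m with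
      | nil => rfl
      | cons k m => exact absurd (append_eq_nil_iff.1 e.symm).1 (b k (by simp)).2.1
    | cons g l ih => cases m with
      | nil => exact absurd (append_eq_nil_iff.1 e).1 (a g (by simp)).2.1
      | cons k m =>
        rcases append_eq_append_iff.1 e with ⟨t, p, q⟩ | ⟨t, p, q⟩
        · obtain rfl := key a b p q
          rw [p, append_nil, ih m q (forall_mem_cons.1 a).2 (forall_mem_cons.1 b).2]
        · obtain rfl := key b a p q
          rw [p, append_nil, ih m q.symm (forall_mem_cons.1 a).2 (forall_mem_cons.1 b).2]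

def D : DFA Bool (Fin 4) := ⟨fun s c => if s = 3 then 3 else if c then s + 1 else 0, 0, {s | s ≠ 3}⟩

lemma mono (w : List Bool) : ∀ s t, s ≤ t → D.evalFrom s w ≤ D.evalFrom t w := by
  induction w with
  | nil => exact fun _ _ h => h
  | cons c w ih => exact fun s t h => ih _ _ (by revert s t c; decide)

lemma sink (w : List Bool) : D.evalFrom 3 w = 3 := by
  induction w with
  | nil => rfl
  | cons c w ih => exact ih

lemma zero (n : ℕ) : D.evalFrom 0 (replicate n false) = 0 := by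
  induction n with
  | zero => rfl
  | succ c ih => exact ih

def N (p : ℕ) : Set (List Bool) := {w | D.evalFrom 1 w ≤ 1 ∧ count false w ≡ count true w [MOD p]}

lemma fN (p : ℕ) (hp : p ≠ 1) : Sub (N p) ∧ Stab (N p) ∧ N p ⊆ D.accepts := by
  refine ⟨⟨⟨le_rfl, rfl⟩, fun u a v b => ⟨?_, ?_⟩⟩, fun u a v b w c d => ?_, fun w a h => ?_⟩
  · rw [D.evalFrom_of_append]; exact (mono v _ _ a.1).trans b.1
  · simpa using a.2.add b.2
  · have e : count false w ≡ count true w [MOD p] := a.2.add_left_cancel (by simpa using c.2)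
    refine ⟨?_, e⟩
    have c := c.1
    have d := d.1
    rw [D.evalFrom_of_append] at c d
    replace c := (mono w 0 _ (Fin.zero_le _)).trans c
    rcases w with _ | ⟨_ | _, _ | ⟨_ | _, w⟩⟩
    exacts [le_rfl, c, c, c, absurd (Nat.dvd_one.1 e.dvd') hp, c,
      absurd ((sink v).symm.trans_le ((congrArg (D.evalFrom · v) (sink w)).symm.trans_le d)) (by decide)]
  · exact absurd (h.symm.trans_le ((mono w 0 1 (by decide)).trans a.1)) (by decide)

theorem result : ∃ L : Language Bool, FTR L ∧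
    {M : Set (List Bool) | Maximal (fun M => Free M ∧ M ⊆ L) M}.Infinite := by
  refine ⟨D.accepts, ⟨?_, fun u a v b => ⟨[false], ?_⟩, _, inferInstance, D, rfl⟩, ?_⟩
  · rintro _ a u ⟨x, y, rfl⟩ h
    apply a
    simp only [DFA.eval, D.evalFrom_of_append] at h ⊢
    rw [show D.evalFrom _ u = 3 from Fin.last_le_iff.1 (h.symm.trans_le (mono u _ _ (Fin.zero_le _))), sink]
  · rw [DFA.mem_accepts, DFA.eval, D.evalFrom_of_append, D.evalFrom_append_singleton]
    exact (congrArg (D.evalFrom · v ∈ D.accept) (if_neg a)).mpr b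
  simp only [free_iff, and_assoc]
  have Z (p) (hp : p ≠ 1) : ∃ M, N p ⊆ M ∧ Maximal (fun M => Sub M ∧ Stab M ∧ M ⊆ D.accepts) M := by
    refine zorn_subset_nonempty {M | Sub M ∧ Stab M ∧ M ⊆ D.accepts} (fun c h i ⟨x, n⟩ =>
      ⟨⋃₀ c, ⟨⟨⟨x, n, (h n).1.1⟩, ?_⟩, ?_, fun w ⟨m, a, b⟩ => (h a).2.2 b⟩,
        fun s => Set.subset_sUnion_of_mem⟩) _ (fN p hp)
    · rintro u ⟨a, ha, hu⟩ v ⟨b, hb, hv⟩
      obtain ⟨m, hm, p, q⟩ := i.directedOn a ha b hb
      exact ⟨m, hm, (h hm).1.2 u (p hu) v (q hv)⟩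
    · rintro u ⟨a, ha, hu⟩ v ⟨b, hb, hv⟩ w ⟨d, hd, h1⟩ ⟨e, he, h2⟩
      obtain ⟨m, hm, p, q⟩ := i.directedOn a ha b hb
      obtain ⟨k, hk, r, s⟩ := i.directedOn d hd e he
      obtain ⟨j, hj, t, z⟩ := i.directedOn m hm k hk
      exact ⟨j, hj, (h hj).2.1 u (t (p hu)) v (t (q hv)) w (z (r h1)) (z (s h2))⟩
  choose! F h1 h2 using Z
  refine Set.infinite_of_injOn_mapsTo (f := F) (fun p hp q hq e => by_contra fun n => ?_)
    (fun p hp => h2 p hp.ne_one) Nat.infinite_setOf_prime
  obtain ⟨s, t, l⟩ := (h2 p hp.ne_one).1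
  have P := h1 p hp.ne_one
  have Q := e ▸ h1 q hq.ne_one
  have r (p n) (h : p ∣ n) : replicate n false ∈ N p := by
    refine ⟨?_, by simpa [count_replicate] using h.modEq_zero_nat⟩
    rcases n with _ | n
    exacts [le_rfl, (zero n).trans_le (by decide)]
  obtain ⟨x, -, hx⟩ := Nat.exists_mul_mod_eq_one_of_coprime ((Nat.coprime_primes hp hq).2 n) hq.one_lt
  have E : p * x = q * (p * x / q) + 1 := by rw [← hx, Nat.div_add_mod]
  have a1 := P (r p _ (dvd_mul_right p x))
  have a2 := Q (r q _ (dvd_mul_right q (p * x / q)))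
  have a : [false] ∈ F p := t _ a2 _ a2 _ (by rwa [E, replicate_succ'] at a1) (by rwa [E] at a1)
  have b : [true] ∈ F p := t _ a _ a _ (P ⟨by decide, rfl⟩) (P ⟨by decide, rfl⟩)
  exact l (s.2 _ b _ (s.2 _ b _ b)) rfl

end Pool.Agent.Results.MP_df6457_lc.Q1
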